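import Pool.Agent.Helper50.CT.Goals

/-!
# Project CT (MP_ccd65d_gt): packet CT-FC, the position on the ray
-/

set_option autoImplicit false

open Set

namespace Pool.Agent.Helper5.CT

open Pool.Agent.Helper50.CT

/-- PACKET FC (position on the ray). -/
theorem goalFC : StmtFC := by
  intro κ X T _ _ π hπ p q c D e h R
  have hD0 : 0 ≤ D := by
    have h1 := R.hD
    have h2 := R.hpos
    linarith
  have h0mem : (0 : ℝ) ∈ Icc (0 : ℝ) D := ⟨le_refl _, hD0⟩
  have hDmem : D ∈ Icc (0 : ℝ) D := ⟨hD0, le_refl _⟩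
  have hpos : ∀ t ∈ Icc (0 : ℝ) D, dist (π p) (π (c t)) = t := by
    intro t ht
    have h1 : dist (π p) (π (c t)) ≤ t := by
      have h2 := hπ (c 0) (c t)
      have h3 := R.iso 0 h0mem t ht
      rw [R.c0] at h2 h3
      rw [h3] at h2
      rw [zero_sub, abs_neg, abs_of_nonneg ht.1] at h2
      exact h2
    have h4 : dist (π (c t)) (π q) ≤ D - t := by
      have h2 := hπ (c t) (c D)
      have h3 := R.iso t ht D hDmem
      rw [R.cD] at h2 h3
      rw [h3] at h2
      rw [abs_sub_comm, abs_of_nonneg (by linarith [ht.2])] at h2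
      exact h2
    have h5 := dist_triangle (π p) (π (c t)) (π q)
    rw [R.dpq] at h5
    linarith
  refine ⟨hpos, ?_⟩
  intro t' s s' hs hts hss' hs'D
  have hmem : ∀ u ∈ Icc (0 : ℝ) 1, s + u * (s' - s) ∈ Icc (0 : ℝ) D ∧ t' < s + u * (s' - s) := by
    intro u hu
    have h1 : 0 ≤ u * (s' - s) := mul_nonneg hu.1 (by linarith)
    have h2 : u * (s' - s) ≤ 1 * (s' - s) :=
      mul_le_mul_of_nonneg_right hu.2 (by linarith)
    refine ⟨⟨by linarith, by linarith⟩, by linarith⟩
  refine JoinedIn.ofLine (f := fun u : ℝ => c (s + u * (s' - s))) ?_ (by simp) (by simp) ?_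
  · have hLip : LipschitzOnWith 1 c (Icc (0 : ℝ) D) := by
      refine LipschitzOnWith.of_dist_le_mul ?_
      intro a ha b hb
      rw [R.iso a ha b hb, Real.dist_eq]
      simp
    have hcont : ContinuousOn (fun u : ℝ => s + u * (s' - s)) (Icc (0 : ℝ) 1) := by
      fun_prop
    exact hLip.continuousOn.comp hcont (fun u hu => (hmem u hu).1)
  · rintro _ ⟨u, hu, rfl⟩
    have h1 := hmem u hu
    show t' < dist (π p) (π (c (s + u * (s' - s))))
    rw [hpos _ h1.1]
    exact h1.2

end Pool.Agent.Helper5.CT
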